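import Pool.Agent.TH609.E3.Rows
import Pool.Agent.H336R2.HD.G3

/-!
# G3: the numerical certificate on the line

(Adapted from the starting file `W170/Z3/G3`.)
-/

set_option autoImplicit false

namespace Pool.Agent.TH609.E3.W170

open Pool.Agent.TH609.E3

open Pool.Agent.H336R2.HD.G3 (vl P1 P2 C6 D6 Q Q_pos P2_pos C6_pos Q_low Q_six Q_append)

/-- numerator of `|c - v|` at `v = n/d` -/
def En (c n d : ℕ) : ℕ := (c * d - 10000 * n) + (10000 * n - c * d)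

/-- numerator of the node factor on `[n0/d0, n1/d1]` -/
def nz (n0 d0 n1 d1 : ℕ) (x : Bool × ℕ × ℕ) : ℕ :=
  if x.1 then max (En x.2.1 n0 d0 * d1) (En x.2.1 n1 d1 * d0)
  else (x.2.1 - 10000) ^ 2 * d1 + 10 ^ 8 * n1

/-- denominator of the node factor -/
def dz (d0 d1 : ℕ) (x : Bool × ℕ × ℕ) : ℕ := if x.1 then 10000 * d0 * d1 else 10 ^ 8 * d1

def LZ (n0 d0 n1 d1 : ℕ) (r : List (Bool × ℕ × ℕ)) : ℕ :=
  (r.map fun x => nz n0 d0 n1 d1 x ^ (2 * x.2.2)).prod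

def MZ (d0 d1 : ℕ) (r : List (Bool × ℕ × ℕ)) : ℕ := (r.map fun x => dz d0 d1 x ^ (2 * x.2.2)).prod

/-- total multiplicity -/
def SN (r : List (Bool × ℕ × ℕ)) : ℕ := (r.map fun x => x.2.2).sum

/-- total exponent `240` -/
def K6 : List (ℕ × ℕ × ℕ) :=
  [(21, 20, 6), (23, 20, 6), (25, 20, 6), (27, 20, 6), (29, 20, 6), (31, 20, 6), (33, 20, 6),
   (35, 20, 6), (37, 20, 6), (39, 20, 6), (21, 10, 18), (23, 10, 18), (25, 10, 18), (27, 10, 18),
   (29, 10, 18), (31, 10, 30), (33, 10, 30), (35, 10, 30)]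

def KR : List (ℕ × ℕ × ℕ) :=
  [(37, 10, 30), (39, 10, 30), (41, 10, 36), (43, 10, 36), (45, 10, 36), (47, 10, 36), (49, 10, 36),
   (21, 4, 90), (23, 4, 90), (25, 4, 90), (27, 4, 90), (15, 2, 180), (17, 2, 180), (19, 2, 180),
   (21, 2, 180), (12, 1, 240), (29, 2, 360), (18, 1, 480), (24, 1, 960)]

/-- reduced far factors -/
def K2b : List (ℕ × ℕ × ℕ) := [(18, 1, 480), (15, 1, 240), (27, 2, 120), (55, 4, 75)]

/-- the far factors before the reduction -/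
def K3 : List (ℕ × ℕ × ℕ) := [(36, 1, 1920), (60, 1, 3840), (108, 1, 7680), (220, 1, 19200)]

def K2 : List (ℕ × ℕ × ℕ) := KR ++ K2b

def KK0 : List (ℕ × ℕ × ℕ) := K6 ++ K2

def chkI (t : ℕ) (r : List (Bool × ℕ × ℕ)) (p q : ℕ × ℕ) : Bool :=
  decide (0 < p.2) && decide (0 < q.2) &&
    decide (2 ^ t * LZ p.1 p.2 q.1 q.2 r * P2 KK0 p.2 ≤ 2 ^ TO * P1 KK0 p.1 p.2 * MZ p.2 q.2 r)

def chkL (t : ℕ) (r : List (Bool × ℕ × ℕ)) : List (ℕ × ℕ) → Bool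
  | [] => true
  | p :: l => (match l with
    | [] => true
    | q :: _ => chkI t r p q) && chkL t r l

def chkT (t : ℕ) (r : List (Bool × ℕ × ℕ)) (p : ℕ × ℕ) : Bool :=
  decide (0 < p.2) && decide (121 * p.2 ≤ p.1) && decide (SN r ≤ 120) &&
    decide (2 ^ t * 4 ^ SN r * P2 K2 p.2 * C6 K6 * p.2 ^ (240 - 2 * SN r) ≤
      2 ^ TO * p.1 ^ (240 - 2 * SN r) * P1 K2 p.1 p.2 * D6 K6)

/-- the node factor in terms of the row -/
noncomputable def vr (v : ℝ) (x : Bool × ℕ × ℕ) : ℝ :=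
  if x.1 then |(x.2.1 : ℝ) / 10000 - v| else ((x.2.1 : ℝ) / 10000 - 1) ^ 2 + v

theorem vr_nonneg {v : ℝ} (hv : 0 ≤ v) (x : Bool × ℕ × ℕ) : 0 ≤ vr v x := by
  unfold vr
  split <;> positivity

theorem nv_eq (i b : ℕ) (v : ℝ) : nv i v = vr v (decide (i < nL), cN i, sG b i) := by
  unfold nv vr cG
  by_cases h : i < nL
  · simp [h]
  · simp [h]

theorem prod_nv (b : ℕ) (v : ℝ) : ∏ i ∈ Finset.range nN, nv i v ^ (2 * sG b i) =
    ((row b).map fun x => vr v x ^ (2 * x.2.2)).prod := by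
  rw [← prod_row b (fun x => vr v x ^ (2 * x.2.2))]
  exact Finset.prod_congr rfl fun i _ => by rw [nv_eq i b]

theorem En_cast (c n d : ℕ) : ((En c n d : ℕ) : ℝ) = |(c : ℝ) * d - 10000 * n| := by
  unfold En
  rcases le_total (c * d) (10000 * n) with h | h
  · rw [Nat.sub_eq_zero_of_le h, zero_add, Nat.cast_sub h]
    have h' : (c : ℝ) * d ≤ 10000 * n := by exact_mod_cast h
    rw [abs_of_nonpos (by linarith)]
    push_cast
    ring
  · rw [Nat.sub_eq_zero_of_le h, add_zero, Nat.cast_sub h]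
    have h' : (10000 : ℝ) * n ≤ c * d := by exact_mod_cast h
    rw [abs_of_nonneg (by linarith)]
    push_cast
    ring

theorem abs_max {h v0 v1 v M : ℝ} (h0 : v0 ≤ v) (h1 : v ≤ v1) (hM0 : |h - v0| ≤ M) (hM1 : |h - v1| ≤ M) :
    |h - v| ≤ M := by
  rw [abs_le] at hM0 hM1 ⊢
  constructor <;> linarith [hM0.1, hM0.2, hM1.1, hM1.2]

theorem factorz (c : ℕ) {n0 d0 n1 d1 : ℕ} (hd0 : 0 < d0) (hd1 : 0 < d1) {v : ℝ}
    (h0 : vl (n0, d0) ≤ v) (h1 : v ≤ vl (n1, d1)) :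
    |(c : ℝ) / 10000 - v| * (10000 * d0 * d1) ≤
      ((max (En c n0 d0 * d1) (En c n1 d1 * d0) : ℕ) : ℝ) := by
  have hd0' : (0 : ℝ) < d0 := by exact_mod_cast hd0
  have hd1' : (0 : ℝ) < d1 := by exact_mod_cast hd1
  set M : ℝ := ((max (En c n0 d0 * d1) (En c n1 d1 * d0) : ℕ) : ℝ) with hM
  have hc : (0 : ℝ) < 10000 * d0 * d1 := by positivity
  have e0 : |(c : ℝ) / 10000 - vl (n0, d0)| * (10000 * d0 * d1) = ((En c n0 d0 * d1 : ℕ) : ℝ) := by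
    rw [Nat.cast_mul, En_cast]
    have : (c : ℝ) * d0 - 10000 * n0 = ((c : ℝ) / 10000 - vl (n0, d0)) * (10000 * d0) := by
      unfold vl; field_simp
    rw [this, abs_mul, abs_of_pos (by positivity : (0 : ℝ) < 10000 * d0)]
    ring
  have e1 : |(c : ℝ) / 10000 - vl (n1, d1)| * (10000 * d0 * d1) = ((En c n1 d1 * d0 : ℕ) : ℝ) := by
    rw [Nat.cast_mul, En_cast]
    have : (c : ℝ) * d1 - 10000 * n1 = ((c : ℝ) / 10000 - vl (n1, d1)) * (10000 * d1) := by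
      unfold vl; field_simp
    rw [this, abs_mul, abs_of_pos (by positivity : (0 : ℝ) < 10000 * d1)]
    ring
  rw [← le_div_iff₀ hc]
  apply abs_max h0 h1
  · rw [le_div_iff₀ hc, e0, hM]
    exact_mod_cast le_max_left _ _
  · rw [le_div_iff₀ hc, e1, hM]
    exact_mod_cast le_max_right _ _

/-- entries of the rows between the poles have parameters in `[1, 12]` -/
def RowOK (r : List (Bool × ℕ × ℕ)) : Prop :=
  ∀ x ∈ r, if x.1 then x.2.1 ≤ 120000 else 10000 ≤ x.2.1 ∧ x.2.1 ≤ 120000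

theorem vr_le {n0 d0 n1 d1 : ℕ} (hd0 : 0 < d0) (hd1 : 0 < d1) {v : ℝ}
    (h0 : vl (n0, d0) ≤ v) (h1 : v ≤ vl (n1, d1)) (x : Bool × ℕ × ℕ)
    (hx : if x.1 then x.2.1 ≤ 120000 else 10000 ≤ x.2.1 ∧ x.2.1 ≤ 120000) :
    vr v x * (dz d0 d1 x : ℝ) ≤ (nz n0 d0 n1 d1 x : ℝ) := by
  obtain ⟨k, c, s⟩ := x
  cases k with
  | true =>
    have e1 : vr v (true, c, s) = |(c : ℝ) / 10000 - v| := by simp [vr]
    have e2 : dz d0 d1 (true, c, s) = 10000 * d0 * d1 := by simp [dz]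
    have e3 : nz n0 d0 n1 d1 (true, c, s) = max (En c n0 d0 * d1) (En c n1 d1 * d0) := by simp [nz]
    rw [e1, e2, e3, Nat.cast_mul, Nat.cast_mul]
    exact factorz c hd0 hd1 h0 h1
  | false =>
    have e1 : vr v (false, c, s) = ((c : ℝ) / 10000 - 1) ^ 2 + v := by simp [vr]
    have e2 : dz d0 d1 (false, c, s) = 10 ^ 8 * d1 := by simp [dz]
    have e3 : nz n0 d0 n1 d1 (false, c, s) = (c - 10000) ^ 2 * d1 + 10 ^ 8 * n1 := by simp [nz]
    have hx' : 10000 ≤ c := by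
      simp at hx
      exact hx.1
    have hd1' : (0 : ℝ) < d1 := by exact_mod_cast hd1
    have h1' : v * d1 ≤ n1 := by
      have : v ≤ (n1 : ℝ) / d1 := h1
      rwa [le_div_iff₀ hd1'] at this
    rw [e1, e2, e3]
    have e4 : ((c - 10000 : ℕ) : ℝ) = (c : ℝ) - 10000 := by
      rw [Nat.cast_sub hx']; norm_num
    push_cast
    rw [e4]
    have e5 : (((c : ℝ) / 10000 - 1) ^ 2 + v) * (100000000 * d1) =
        ((c : ℝ) - 10000) ^ 2 * d1 + 100000000 * (v * d1) := by ring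
    rw [e5]
    linarith

theorem prod_vr_nonneg {v : ℝ} (hv : 0 ≤ v) (r : List (Bool × ℕ × ℕ)) :
    0 ≤ (r.map fun x => vr v x ^ (2 * x.2.2)).prod := by
  apply List.prod_nonneg
  intro a ha
  obtain ⟨y, _, rfl⟩ := List.mem_map.1 ha
  exact pow_nonneg (vr_nonneg hv y) _

theorem LZ_sound {n0 d0 n1 d1 : ℕ} (hd0 : 0 < d0) (hd1 : 0 < d1) {v : ℝ}
    (h0 : vl (n0, d0) ≤ v) (h1 : v ≤ vl (n1, d1)) (r : List (Bool × ℕ × ℕ)) (hr : RowOK r) :
    (r.map fun x => vr v x ^ (2 * x.2.2)).prod * (MZ d0 d1 r : ℝ) ≤ (LZ n0 d0 n1 d1 r : ℝ) := by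
  have hv : 0 ≤ v := le_trans (by unfold vl; positivity) h0
  induction r with
  | nil => simp [LZ, MZ]
  | cons x r ih =>
    have hr' : RowOK r := fun y hy => hr y (List.mem_cons_of_mem _ hy)
    have e1 : LZ n0 d0 n1 d1 (x :: r) = nz n0 d0 n1 d1 x ^ (2 * x.2.2) * LZ n0 d0 n1 d1 r := by
      unfold LZ; rw [List.map_cons, List.prod_cons]
    have e2 : MZ d0 d1 (x :: r) = dz d0 d1 x ^ (2 * x.2.2) * MZ d0 d1 r := by
      unfold MZ; rw [List.map_cons, List.prod_cons]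
    rw [e1, e2, List.map_cons, List.prod_cons, Nat.cast_mul, Nat.cast_mul, Nat.cast_pow, Nat.cast_pow]
    have hr0 := prod_vr_nonneg hv r
    have hx := vr_le hd0 hd1 h0 h1 x (hr x (by simp))
    have hx0 := vr_nonneg hv x
    calc vr v x ^ (2 * x.2.2) * (r.map fun x => vr v x ^ (2 * x.2.2)).prod *
          ((dz d0 d1 x : ℝ) ^ (2 * x.2.2) * (MZ d0 d1 r : ℝ))
        = (vr v x * (dz d0 d1 x : ℝ)) ^ (2 * x.2.2) *
          ((r.map fun x => vr v x ^ (2 * x.2.2)).prod * (MZ d0 d1 r : ℝ)) := by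
          rw [mul_pow]; ring
      _ ≤ (nz n0 d0 n1 d1 x : ℝ) ^ (2 * x.2.2) * (LZ n0 d0 n1 d1 r : ℝ) := by
          apply mul_le_mul _ (ih hr') (mul_nonneg hr0 (Nat.cast_nonneg _)) (pow_nonneg (Nat.cast_nonneg _) _)
          exact pow_le_pow_left₀ (mul_nonneg hx0 (Nat.cast_nonneg _)) hx _

theorem MZ_pos {d0 d1 : ℕ} (hd0 : 0 < d0) (hd1 : 0 < d1) (r : List (Bool × ℕ × ℕ)) : 0 < MZ d0 d1 r := by
  unfold MZ
  apply List.prod_pos
  intro a ha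
  obtain ⟨x, _, rfl⟩ := List.mem_map.1 ha
  apply Nat.pow_pos
  unfold dz
  split
  · exact Nat.mul_pos (Nat.mul_pos (by norm_num) hd0) hd1
  · exact Nat.mul_pos (by norm_num) hd1

theorem bern {v c : ℝ} (hv : 0 ≤ v) (hc : 0 < c) (s e : ℕ) (hs : 0 < s) :
    (1 + v / (c / s) ^ 2) ^ e ≤ (1 + v / c ^ 2) ^ (s ^ 2 * e) := by
  rw [pow_mul]
  apply pow_le_pow_left₀ (by positivity)
  have h1 := one_add_mul_le_pow (a := v / c ^ 2) (by
    have : 0 ≤ v / c ^ 2 := by positivity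
    linarith) (s ^ 2)
  refine le_trans (le_of_eq ?_) h1
  have hs' : (s : ℝ) ≠ 0 := by exact_mod_cast hs.ne'
  push_cast
  field_simp

theorem FXpG_eq (v : ℝ) : FXpG v = Q (K6 ++ KR ++ K3) v := by
  unfold FXpG Q FXG K6 KR K3
  simp

theorem posK6 : Pool.Agent.H336R2.HD.G3.Pos K6 := by unfold Pool.Agent.H336R2.HD.G3.Pos; decide
theorem posK2 : Pool.Agent.H336R2.HD.G3.Pos K2 := by unfold Pool.Agent.H336R2.HD.G3.Pos; decide
theorem posKK0 : Pool.Agent.H336R2.HD.G3.Pos KK0 := by unfold Pool.Agent.H336R2.HD.G3.Pos; decide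
theorem posKc : Pool.Agent.H336R2.HD.G3.Pos (K6 ++ KR) := by
  unfold Pool.Agent.H336R2.HD.G3.Pos; decide

theorem K23 {v : ℝ} (hv : 0 ≤ v) : Q K2b v ≤ Q K3 v := by
  have b1 := bern hv (c := 36) (by norm_num) 2 480 (by norm_num)
  have b2 := bern hv (c := 60) (by norm_num) 4 240 (by norm_num)
  have b3 := bern hv (c := 108) (by norm_num) 8 120 (by norm_num)
  have b4 := bern hv (c := 220) (by norm_num) 16 75 (by norm_num)
  have e1 : (36 : ℝ) / ((2 : ℕ) : ℝ) = ((18 : ℕ) : ℝ) / ((1 : ℕ) : ℝ) := by norm_num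
  have e2 : (60 : ℝ) / ((4 : ℕ) : ℝ) = ((15 : ℕ) : ℝ) / ((1 : ℕ) : ℝ) := by norm_num
  have e3 : (108 : ℝ) / ((8 : ℕ) : ℝ) = ((27 : ℕ) : ℝ) / ((2 : ℕ) : ℝ) := by norm_num
  have e4 : (220 : ℝ) / ((16 : ℕ) : ℝ) = ((55 : ℕ) : ℝ) / ((4 : ℕ) : ℝ) := by norm_num
  have f1 : (36 : ℝ) = ((36 : ℕ) : ℝ) / ((1 : ℕ) : ℝ) := by norm_num
  have f2 : (60 : ℝ) = ((60 : ℕ) : ℝ) / ((1 : ℕ) : ℝ) := by norm_num
  have f3 : (108 : ℝ) = ((108 : ℕ) : ℝ) / ((1 : ℕ) : ℝ) := by norm_num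
  have f4 : (220 : ℝ) = ((220 : ℕ) : ℝ) / ((1 : ℕ) : ℝ) := by norm_num
  rw [e1, f1] at b1
  rw [e2, f2] at b2
  rw [e3, f3] at b3
  rw [e4, f4] at b4
  have g1 : 2 ^ 2 * 480 = 1920 := by norm_num
  have g2 : 4 ^ 2 * 240 = 3840 := by norm_num
  have g3 : 8 ^ 2 * 120 = 7680 := by norm_num
  have g4 : 16 ^ 2 * 75 = 19200 := by norm_num
  rw [g1] at b1
  rw [g2] at b2
  rw [g3] at b3
  rw [g4] at b4
  have n1 : ∀ a b e : ℕ, 0 ≤ (1 + v / ((a : ℝ) / (b : ℝ)) ^ 2) ^ e := fun a b e => by positivity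
  unfold Q K2b K3
  simp only [List.map_cons, List.map_nil, List.prod_cons, List.prod_nil, mul_one]
  exact mul_le_mul b1 (mul_le_mul b2 (mul_le_mul b3 b4 (n1 _ _ _) (n1 _ _ _))
    (mul_nonneg (n1 _ _ _) (n1 _ _ _)) (n1 _ _ _))
    (mul_nonneg (n1 _ _ _) (mul_nonneg (n1 _ _ _) (n1 _ _ _))) (n1 _ _ _)

theorem FXpG_ge {v : ℝ} (hv : 0 ≤ v) : Q KK0 v ≤ FXpG v := by
  rw [FXpG_eq, show KK0 = K6 ++ KR ++ K2b from rfl, Q_append, Q_append (K6 ++ KR)]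
  exact mul_le_mul_of_nonneg_left (K23 hv) (Q_pos _ posKc hv).le

theorem chkI_spec {t : ℕ} {r : List (Bool × ℕ × ℕ)} {p q : ℕ × ℕ} (h : chkI t r p q = true) :
    0 < p.2 ∧ 0 < q.2 ∧
      2 ^ t * LZ p.1 p.2 q.1 q.2 r * P2 KK0 p.2 ≤ 2 ^ TO * P1 KK0 p.1 p.2 * MZ p.2 q.2 r := by
  unfold chkI at h
  rw [Bool.and_eq_true, Bool.and_eq_true] at h
  exact ⟨of_decide_eq_true h.1.1, of_decide_eq_true h.1.2, of_decide_eq_true h.2⟩

theorem real_intervalz {L D P2' LN' T P1' Q' O : ℝ} (hL : L * D ≤ LN') (hQ : P1' ≤ Q' * P2')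
    (hP2 : 0 < P2') (hD : 0 < D) (hT : 0 ≤ T) (hO : 0 ≤ O) (hle : T * LN' * P2' ≤ O * P1' * D) :
    T * L ≤ O * Q' := by
  have hc : 0 < D * P2' := mul_pos hD hP2
  refine le_of_mul_le_mul_right ?_ hc
  calc T * L * (D * P2') = T * (L * D) * P2' := by ring
    _ ≤ T * LN' * P2' := mul_le_mul_of_nonneg_right (mul_le_mul_of_nonneg_left hL hT) hP2.le
    _ ≤ O * P1' * D := hle
    _ ≤ O * (Q' * P2') * D := mul_le_mul_of_nonneg_right (mul_le_mul_of_nonneg_left hQ hO) hD.le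
    _ = O * Q' * (D * P2') := by ring

theorem nat_intervalz (LN' P2' t o P1' D : ℕ) (h : 2 ^ t * LN' * P2' ≤ 2 ^ o * P1' * D) :
    (2 : ℝ) ^ t * (LN' : ℝ) * (P2' : ℝ) ≤ 2 ^ o * (P1' : ℝ) * (D : ℝ) := by
  exact_mod_cast h

theorem intervalz {t : ℕ} {r : List (Bool × ℕ × ℕ)} (hr : RowOK r) {p q : ℕ × ℕ}
    (h : chkI t r p q = true) {v : ℝ} (h0 : vl p ≤ v) (h1 : v ≤ vl q) :
    2 ^ t * (r.map fun x => vr v x ^ (2 * x.2.2)).prod ≤ 2 ^ TO * FXpG v := by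
  obtain ⟨n0, d0⟩ := p
  obtain ⟨n1, d1⟩ := q
  obtain ⟨hp, hq, hle⟩ := chkI_spec h
  have hv0 : 0 ≤ v := le_trans (by unfold vl; positivity) h0
  have hD : (0 : ℝ) < (MZ d0 d1 r : ℝ) := by exact_mod_cast MZ_pos hp hq r
  refine le_trans ?_ (mul_le_mul_of_nonneg_left (FXpG_ge hv0) (pow_nonneg (by norm_num) _))
  exact real_intervalz (LZ_sound hp hq h0 h1 r hr) (Q_low KK0 posKK0 hp h0)
    (P2_pos KK0 posKK0 hp) hD (pow_nonneg (by norm_num) _) (pow_nonneg (by norm_num) _)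
    (nat_intervalz _ _ _ _ _ _ hle)

theorem chainz {t : ℕ} {r : List (Bool × ℕ × ℕ)} (hr : RowOK r) :
    ∀ (l : List (ℕ × ℕ)) (p : ℕ × ℕ), chkL t r (p :: l) = true →
    ∀ v : ℝ, vl p ≤ v → v < vl ((p :: l).getLast (by simp)) →
    2 ^ t * (r.map fun x => vr v x ^ (2 * x.2.2)).prod ≤ 2 ^ TO * FXpG v := by
  intro l
  induction l with
  | nil =>
    intro p _ v h0 h1
    simp at h1
    linarith
  | cons q l ih =>
    intro p h v h0 h1
    have h' : chkI t r p q = true ∧ chkL t r (q :: l) = true := by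
      have : chkL t r (p :: q :: l) = (chkI t r p q && chkL t r (q :: l)) := rfl
      rw [this, Bool.and_eq_true] at h
      exact h
    rcases le_or_gt v (vl q) with h2 | h2
    · exact intervalz hr h'.1 h0 h2
    · apply ih q h'.2 v h2.le
      rw [List.getLast_cons (by simp)] at h1
      exact h1

theorem prod_tailz {v : ℝ} (hv : 121 ≤ v) (r : List (Bool × ℕ × ℕ)) (hr : RowOK r) :
    (r.map fun x => vr v x ^ (2 * x.2.2)).prod ≤ (2 * v) ^ (2 * SN r) := by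
  have hv0 : 0 ≤ v := by linarith
  induction r with
  | nil => simp [SN]
  | cons x r ih =>
    have hr' : RowOK r := fun y hy => hr y (List.mem_cons_of_mem _ hy)
    have e : SN (x :: r) = x.2.2 + SN r := by
      unfold SN; rw [List.map_cons, List.sum_cons]
    rw [e, List.map_cons, List.prod_cons, mul_add, pow_add]
    have hx := hr x (by simp)
    have h1 : vr v x ≤ 2 * v := by
      obtain ⟨k, c, s⟩ := x
      cases k with
      | true =>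
        have e1 : vr v (true, c, s) = |(c : ℝ) / 10000 - v| := by simp [vr]
        have h2 : c ≤ 120000 := by simpa using hx
        have h2' : (c : ℝ) ≤ 120000 := by exact_mod_cast h2
        have h3 : (0 : ℝ) ≤ c := Nat.cast_nonneg _
        rw [e1, abs_le]
        constructor <;> linarith
      | false =>
        have e1 : vr v (false, c, s) = ((c : ℝ) / 10000 - 1) ^ 2 + v := by simp [vr]
        have h2 : 10000 ≤ c ∧ c ≤ 120000 := by simpa using hx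
        have h2' : (c : ℝ) ≤ 120000 := by exact_mod_cast h2.2
        have h3 : (10000 : ℝ) ≤ c := by exact_mod_cast h2.1
        rw [e1]
        have h4 : ((c : ℝ) / 10000 - 1) ^ 2 ≤ 11 ^ 2 := by
          apply pow_le_pow_left₀ <;> linarith
        linarith
    exact mul_le_mul (pow_le_pow_left₀ (vr_nonneg hv0 x) h1 _) (ih hr') (prod_vr_nonneg hv0 r)
      (pow_nonneg (by linarith) _)

theorem real_tailz {P v d n T q2 q6 p2 c6 r2 d6 O : ℝ} {S Z : ℕ}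
    (hS : 2 * S + Z = 240)
    (hv0 : 0 ≤ v) (hd : 0 < d) (hn0 : 0 ≤ n) (hnv : n ≤ v * d)
    (hP : P ≤ (2 * v) ^ (2 * S))
    (h2 : r2 ≤ q2 * p2) (h6 : v ^ 240 * d6 ≤ q6 * c6)
    (hp2 : 0 < p2) (hc6 : 0 < c6) (hr2 : 0 ≤ r2)
    (hd6 : 0 ≤ d6) (hT : 0 ≤ T) (hO : 0 ≤ O)
    (hq2 : 0 < q2)
    (hle : T * 4 ^ S * p2 * c6 * d ^ Z ≤ O * n ^ Z * r2 * d6) :
    T * P ≤ O * (q6 * q2) := by
  refine (mul_le_mul_of_nonneg_left hP hT).trans ?_
  have hc : (0 : ℝ) < p2 * c6 * d ^ Z := by positivity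
  refine le_of_mul_le_mul_right ?_ hc
  have hnZ : n ^ Z ≤ (v * d) ^ Z := pow_le_pow_left₀ hn0 hnv Z
  have hvS : 0 ≤ v ^ (2 * S) := by positivity
  have hdZ : 0 ≤ d ^ Z := by positivity
  have e3 : v ^ (2 * S) * (v * d) ^ Z = v ^ 240 * d ^ Z := by
    rw [← hS, pow_add, mul_pow]; ring
  have e4 : (2 * v) ^ (2 * S) = 4 ^ S * v ^ (2 * S) := by
    rw [mul_pow, pow_mul 2 2 S]; norm_num
  calc T * (2 * v) ^ (2 * S) * (p2 * c6 * d ^ Z)
      = v ^ (2 * S) * (T * 4 ^ S * p2 * c6 * d ^ Z) := by rw [e4]; ring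
    _ ≤ v ^ (2 * S) * (O * n ^ Z * r2 * d6) :=
        mul_le_mul_of_nonneg_left hle hvS
    _ ≤ v ^ (2 * S) * (O * (v * d) ^ Z * (q2 * p2) * d6) := by
        apply mul_le_mul_of_nonneg_left _ hvS
        apply mul_le_mul_of_nonneg_right _ hd6
        have hvd : 0 ≤ (v * d) ^ Z := pow_nonneg (by positivity) _
        apply mul_le_mul _ h2 hr2 (by positivity)
        exact mul_le_mul_of_nonneg_left hnZ hO
    _ = O * (q2 * p2) * d6 * (v ^ (2 * S) * (v * d) ^ Z) := by ring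
    _ = O * d ^ Z * (q2 * p2) * (v ^ 240 * d6) := by
        rw [e3]; ring
    _ ≤ O * d ^ Z * (q2 * p2) * (q6 * c6) := by
        apply mul_le_mul_of_nonneg_left h6
        positivity
    _ = _ := by ring

theorem nat_tailz (p2 c6 d Z t o s n r2 d6 : ℕ)
    (h : 2 ^ t * 4 ^ s * p2 * c6 * d ^ Z ≤ 2 ^ o * n ^ Z * r2 * d6) :
    (2 : ℝ) ^ t * 4 ^ s * (p2 : ℝ) * (c6 : ℝ) * (d : ℝ) ^ Z ≤
      2 ^ o * (n : ℝ) ^ Z * (r2 : ℝ) * (d6 : ℝ) := by
  exact_mod_cast h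

theorem chkT_spec {t : ℕ} {r : List (Bool × ℕ × ℕ)} {p : ℕ × ℕ} (h : chkT t r p = true) :
    0 < p.2 ∧ 121 * p.2 ≤ p.1 ∧ SN r ≤ 120 ∧
      2 ^ t * 4 ^ SN r * P2 K2 p.2 * C6 K6 * p.2 ^ (240 - 2 * SN r) ≤
      2 ^ TO * p.1 ^ (240 - 2 * SN r) * P1 K2 p.1 p.2 * D6 K6 := by
  unfold chkT at h
  rw [Bool.and_eq_true, Bool.and_eq_true, Bool.and_eq_true] at h
  exact ⟨of_decide_eq_true h.1.1.1, of_decide_eq_true h.1.1.2, of_decide_eq_true h.1.2,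
    of_decide_eq_true h.2⟩

theorem tailz {t : ℕ} {r : List (Bool × ℕ × ℕ)} (hr : RowOK r) {p : ℕ × ℕ}
    (h : chkT t r p = true) {v : ℝ} (h0 : vl p ≤ v) :
    2 ^ t * (r.map fun x => vr v x ^ (2 * x.2.2)).prod ≤ 2 ^ TO * FXpG v := by
  obtain ⟨n, d⟩ := p
  obtain ⟨hd, hnd, hS, hle⟩ := chkT_spec h
  have hd' : (0 : ℝ) < d := by exact_mod_cast hd
  have hnd' : (121 : ℝ) * d ≤ n := by exact_mod_cast hnd
  have hnv : (n : ℝ) ≤ v * d := by
    have : (n : ℝ) / d ≤ v := h0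
    rwa [div_le_iff₀ hd'] at this
  have hv : 121 ≤ v := by
    have h1 : 121 * (d : ℝ) ≤ v * d := hnd'.trans hnv
    exact le_of_mul_le_mul_right h1 hd'
  have hv0 : 0 ≤ v := by linarith
  have hs6 : (K6.map fun y => y.2.2).sum = 240 := rfl
  have h6 := Q_six K6 posK6 hv0
  rw [hs6] at h6
  refine le_trans ?_ (mul_le_mul_of_nonneg_left (FXpG_ge hv0) (pow_nonneg (by norm_num) _))
  rw [show KK0 = K6 ++ K2 from rfl, Q_append]
  exact real_tailz (S := SN r) (Z := 240 - 2 * SN r) (by omega) hv0 hd' (Nat.cast_nonneg _) hnv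
    (prod_tailz hv r hr) (Q_low K2 posK2 hd h0) h6 (P2_pos K2 posK2 hd) (C6_pos K6 posK6)
    (Nat.cast_nonneg _) (Nat.cast_nonneg _) (pow_nonneg (by norm_num) _) (pow_nonneg (by norm_num) _)
    (Q_pos K2 posK2 hv0)
    (nat_tailz _ _ _ _ _ _ _ _ _ _ hle)

/-- test of a stage -/
def Cert (t : ℕ) (r : List (Bool × ℕ × ℕ)) : Prop :=
  ∃ (l : List (ℕ × ℕ)) (p : ℕ × ℕ), chkL t r ((0, 1) :: l) = true ∧
    ((0, 1) :: l).getLast (by simp) = p ∧ chkT t r p = true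

theorem cert_sound {t : ℕ} {r : List (Bool × ℕ × ℕ)} (hr : RowOK r) (h : Cert t r) {v : ℝ}
    (hv : 0 ≤ v) : 2 ^ t * (r.map fun x => vr v x ^ (2 * x.2.2)).prod ≤ 2 ^ TO * FXpG v := by
  obtain ⟨l, p, h1, h2, h3⟩ := h
  rcases lt_or_ge v (vl p) with h4 | h4
  · exact chainz hr l (0, 1) h1 v (by unfold vl; simpa using hv) (by rw [h2]; exact h4)
  · exact tailz hr h3 h4

lemma row_ok (b : ℕ) : RowOK (row b) := by
  intro x hx
  obtain ⟨i, hi, rfl⟩ := List.mem_map.1 hx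
  have hi' : i < nN := List.mem_range.1 hi
  have h : ∀ j < nN, cN j ≤ 120000 ∧ (nL ≤ j → 10000 ≤ cN j) := by decide +kernel
  by_cases h1 : i < nL
  · simp only [h1, decide_true, if_true]
    exact (h i hi').1
  · simp only [h1, decide_false]
    exact ⟨(h i hi').2 (not_lt.1 h1), (h i hi').1⟩

theorem G3_of (h : ∀ b ≤ nB, Cert (tG b) (row b)) : StG3 := by
  intro b hb v hv
  rw [prod_nv]
  exact cert_sound (row_ok b) (h b hb) hv

end Pool.Agent.TH609.E3.W170
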